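import Mathlib
import Pool.Agent.Q157.FL.Main

/-!
# Antisymmetric complex potentials Floquet isospectral to zero

For every period `q > 3` there is a nonzero antisymmetric complex potential which is Floquet
isospectral to the zero potential.

Outline.  Let `m = ⌊q/2⌋`.  The difference of the characteristic polynomials of `L_V(z)` and
`L_0(z)` does not depend on `z`, and for antisymmetric `V` with first half `u ∈ ℂ^m` it equals
`∑ p_k(u) λ^(q-2k)`, `k = 1, …, m`.  Suppose that `u = 0` is the only common zero of the `p_k`.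
Evaluating at `λ = u_i` shows that `ℂ[u]` is a finite module over `ℂ[p_1, …, p_m]`, and that
`|u|^(2m) ≤ C (1 + |c|)` on the fibre `p(u) = (0, …, 0, c)`.  At the double eigenvalues
`2 cos(πs/q)`, `z = (-1)^s`, `s = 1, …, m`, of the free matrices the difference is
`-C_s v̂(s) v̂(-s) + O(|u|³)`, and by antisymmetry `|v̂(s)| = |v̂(-s)|`; hence `|u|² ≤ C |c|` on the
same fibre for small `c`.  So the coefficients of the minimal polynomial of each coordinate `u_i`
over `ℂ[p_1, …, p_m]`, restricted to `p = (0, …, 0, c)`, are polynomials in `c` whose order of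
vanishing at `0` is larger than their degree; thus they vanish, and the whole fibre consists of
`u = 0`, which is absurd.
-/

set_option autoImplicit false

namespace Pool.Agent.Results.MP_17669a_mp.AllPeriods

/-- The Floquet matrix `L_V(z)` of a potential `V = (V_0, …, V_{q-1})`, `q ≥ 3`: diagonal entries
`V_j`, entries `1` on the sub- and superdiagonal, `z⁻¹` in the upper right corner, `z` in the lower
left corner, zeros elsewhere. -/
noncomputable def floquetMatrix (q : ℕ) (V : Fin q → ℂ) (z : ℂ) : Matrix (Fin q) (Fin q) ℂ :=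
  Matrix.of fun j k =>
    if j = k then V j
    else if (k : ℕ) = j + 1 ∨ (j : ℕ) = k + 1 then 1
    else if (j : ℕ) = 0 ∧ (k : ℕ) = q - 1 then z⁻¹
    else if (j : ℕ) = q - 1 ∧ (k : ℕ) = 0 then z
    else 0

/-- `V` is Floquet isospectral to the zero potential: for every `z` with `|z| = 1` the matrices
`L_V(z)` and `L_0(z)` have the same characteristic polynomial. -/
def IsospectralToZero (q : ℕ) (V : Fin q → ℂ) : Prop :=
  ∀ z : ℂ, ‖z‖ = 1 → (floquetMatrix q V z).charpoly = (floquetMatrix q 0 z).charpoly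

/-- `V` is antisymmetric: `V_j = -V_{q-1-j}` for `0 ≤ j ≤ q - 1`, that is `v_j = -v_{q+1-j}` with
the numbering `1, …, q`. -/
def IsAntisymmetric (q : ℕ) (V : Fin q → ℂ) : Prop := ∀ j, V j = -V (Fin.rev j)

lemma floquetMatrix_eq (q : ℕ) (hq : 3 ≤ q) (V : Fin q → ℂ) (z : ℂ) :
    floquetMatrix q V z = Pool.Agent.Q157.FL.LM q V z z⁻¹ := by
  ext j k
  have hj := j.2
  have hk := k.2
  simp only [floquetMatrix, Pool.Agent.Q157.FL.LM, Matrix.of_apply]
  by_cases h1 : j = k
  · subst h1
    have a1 : ¬ ((j : ℕ) = j + 1) := by omega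
    have a2 : ¬ ((j : ℕ) = 0 ∧ (j : ℕ) + 1 = q) := by omega
    simp only [if_true, if_neg a1, if_neg a2, add_zero]
  rw [if_neg h1, if_neg h1, zero_add]
  by_cases h2 : (k : ℕ) = j + 1
  · rw [if_pos (Or.inl h2), if_pos h2, if_neg (by omega), if_neg (by omega), if_neg (by omega)]
    ring
  by_cases h3 : (j : ℕ) = k + 1
  · rw [if_pos (Or.inr h3), if_neg h2, if_pos h3, if_neg (by omega), if_neg (by omega)]
    ring
  rw [if_neg (by omega), if_neg h2, if_neg h3]
  by_cases h4 : (j : ℕ) = 0 ∧ (k : ℕ) = q - 1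
  · have b4 : (j : ℕ) = 0 ∧ (k : ℕ) + 1 = q := by omega
    have c4 : ¬ ((k : ℕ) = 0 ∧ (j : ℕ) + 1 = q) := by omega
    rw [if_pos h4, if_pos b4, if_neg c4]
    ring
  have b4 : ¬ ((j : ℕ) = 0 ∧ (k : ℕ) + 1 = q) := by omega
  rw [if_neg h4, if_neg b4]
  by_cases h5 : (j : ℕ) = q - 1 ∧ (k : ℕ) = 0
  · have b5 : (k : ℕ) = 0 ∧ (j : ℕ) + 1 = q := by omega
    rw [if_pos h5, if_pos b5]
    ring
  · have b5 : ¬ ((k : ℕ) = 0 ∧ (j : ℕ) + 1 = q) := by omega
    rw [if_neg h5, if_neg b5]
    ring

/-- For every `q > 3` there is a nonzero antisymmetric complex potential of period `q` that is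
Floquet isospectral to the zero potential. -/
theorem result : ∀ q : ℕ, 3 < q →
    ∃ V : Fin q → ℂ, V ≠ 0 ∧ IsAntisymmetric q V ∧ IsospectralToZero q V := by
  intro q hq
  obtain ⟨V, hV, hanti, hiso⟩ := Pool.Agent.Q157.FL.main hq
  refine ⟨V, hV, hanti, fun z hz => ?_⟩
  have hz0 : z ≠ 0 := by
    rintro rfl
    simp at hz
  rw [floquetMatrix_eq q hq.le, floquetMatrix_eq q hq.le]
  exact hiso z hz0

end Pool.Agent.Results.MP_17669a_mp.AllPeriods
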